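import Pool.Agent.Helper932.SplitPrimes
import Pool.Agent.N24.RW.All

/-!
# Prime divisors `p ≡ 1 (mod q)` of the values of polynomials at linear forms: pronull sets (helper891)
-/

set_option autoImplicit false

namespace Pool.Agent.N891.LT

open Finset Polynomial Pool.Agent.N24.RW Pool.Agent.N24.RW.Clo

/-! ### Hyperplanes -/

theorem ncard_hyper {ι : Type} [Fintype ι] [DecidableEq ι] (lam : ι → ℤ) (i₀ : ι) (p : ℕ)
    (hp : p.Prime) (h : ¬ (p : ℤ) ∣ lam i₀) (t : ZMod p) :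
    p ^ (Fintype.card ι - 1) ≤ {x : ι → ZMod p | ∑ i, (lam i : ZMod p) * x i = t}.ncard := by
  have : Fact p.Prime := ⟨hp⟩
  have hu : ((lam i₀ : ℤ) : ZMod p) ≠ 0 := by
    rw [Ne, ZMod.intCast_zmod_eq_zero_iff_dvd]
    exact h
  set f : ({i : ι // i ≠ i₀} → ZMod p) → (ι → ZMod p) := fun x i =>
    if h : i = i₀ then (lam i₀ : ZMod p)⁻¹ * (t - ∑ j : {i : ι // i ≠ i₀}, (lam j.1 : ZMod p) * x j)
    else x ⟨i, h⟩ with hf
  have hinj : Function.Injective f := by
    intro x y hxy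
    funext j
    have h2 := congrFun hxy j.1
    simp only [hf] at h2
    rw [dif_neg j.2, dif_neg j.2] at h2
    exact h2
  have hsub : Set.range f ⊆ {x : ι → ZMod p | ∑ i, (lam i : ZMod p) * x i = t} := by
    rintro _ ⟨x, rfl⟩
    rw [Set.mem_ofPred_eq, Fintype.sum_eq_add_sum_subtype_ne _ i₀]
    have h1 : ∀ j : {i : ι // i ≠ i₀}, f x j.1 = x j := by
      intro j
      simp only [hf]
      rw [dif_neg j.2]
    have h2 : f x i₀ = (lam i₀ : ZMod p)⁻¹ *
        (t - ∑ j : {i : ι // i ≠ i₀}, (lam j.1 : ZMod p) * x j) := dif_pos rfl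
    simp only [h1]
    rw [h2, ← mul_assoc, mul_inv_cancel₀ hu, one_mul]
    ring
  refine le_trans (le_of_eq ?_) (Set.ncard_le_ncard hsub (Set.toFinite _))
  rw [← Set.image_univ, Set.ncard_image_of_injective _ hinj, Set.ncard_univ,
    Nat.card_fun, Nat.card_zmod, Nat.card_eq_fintype_card, Fintype.card_subtype_compl,
    Fintype.card_subtype_eq]

/-- a linear form avoids given residues modulo the primes of a large set: a pronull condition -/
theorem hit_null {ι : Type} [Fintype ι] (lam : ι → ℤ) (hl : lam ≠ 0) (P : Set ℕ)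
    (hP : ∀ p ∈ P, p.Prime) (hdiv : ¬ Summable (P.indicator fun n : ℕ => (1 : ℝ) / n))
    (t : ∀ p : ℕ, ZMod p) :
    ProNull {c : ι → ℤ | ∀ p ∈ P, ((∑ i, lam i * c i : ℤ) : ZMod p) ≠ t p} := by
  classical
  obtain ⟨i₀, hi₀⟩ := Function.ne_iff.1 hl
  have hi₀' : lam i₀ ≠ 0 := hi₀
  have hcard : 0 < Fintype.card ι := Fintype.card_pos_iff.2 ⟨i₀⟩
  set Ω : ∀ p : ℕ, Set (ι → ZMod p) := fun p => if p ∈ P then
    {x : ι → ZMod p | ∑ i, (lam i : ZMod p) * x i = t p} else ∅ with hΩ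
  have h := crit ι (fun p => p) (fun p hp => hp.one_le)
    (fun p p' hp hp' hne => (Nat.coprime_primes hp hp').2 hne) Ω (lam i₀).natAbs
    (fun p => if p ∈ P then 1 / (p : ℝ) else 0) (fun p => by positivity) ?_ ?_
  · refine (clo ι).1 _ _ ?_ h
    intro c hc p hp hpT hmem
    by_cases hpP : p ∈ P
    · simp only [hΩ, if_pos hpP] at hmem
      apply hc p hpP
      rw [← hmem]
      push_cast
      rfl
    · simp only [hΩ, if_neg hpP] at hmem
      exact absurd hmem (Set.notMem_empty _)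
  · intro hs
    apply hdiv
    refine hs.congr fun n => ?_
    by_cases hn : n ∈ P
    · rw [Set.indicator_of_mem hn, if_pos (hP n hn), if_pos hn]
    · rw [Set.indicator_of_notMem hn]
      simp only [if_neg hn, ite_self]
  · intro p hp hpT
    by_cases hpP : p ∈ P
    · simp only [hΩ, if_pos hpP]
      have hnd : ¬ (p : ℤ) ∣ lam i₀ := by
        intro hd
        have := Nat.le_of_dvd (Int.natAbs_pos.2 hi₀') (Int.natCast_dvd.1 hd)
        omega
      have h1 := ncard_hyper lam i₀ p hp hnd (t p)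
      have hp0 : (0 : ℝ) < p := by exact_mod_cast hp.pos
      have h2 : 1 / (p : ℝ) * (p : ℝ) ^ Fintype.card ι = (p : ℝ) ^ (Fintype.card ι - 1) := by
        obtain ⟨m, hm⟩ : ∃ m, Fintype.card ι = m + 1 := ⟨Fintype.card ι - 1, by omega⟩
        rw [hm, Nat.add_sub_cancel, pow_succ]
        field_simp
      rw [h2]
      exact_mod_cast h1
    · simp only [hΩ, if_neg hpP, zero_mul]
      exact Nat.cast_nonneg _

/-! ### Primes `p ≡ 1 (mod q)` modulo which a polynomial has a zero -/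

/-- the primes `p ≡ 1 (mod q)` modulo which `h` has a zero -/
def PQ (h : ℤ[X]) (q : ℕ) : Set ℕ :=
  {p : ℕ | p.Prime ∧ q ∣ p - 1 ∧ ∃ x : ZMod p, h.eval₂ (Int.castRingHom (ZMod p)) x = 0}

theorem diverges_of_subset {A B : Set ℕ} (F : Set ℕ) (hF : F.Finite) (hAB : A ⊆ B ∪ F)
    (hA : ¬ Summable (A.indicator fun n : ℕ => (1 : ℝ) / n)) :
    ¬ Summable (B.indicator fun n : ℕ => (1 : ℝ) / n) := by
  intro hB
  apply hA
  have h1 : Summable (F.indicator fun n : ℕ => (1 : ℝ) / n) := by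
    apply summable_of_hasFiniteSupport
    exact hF.subset Set.support_indicator_subset
  refine Summable.of_nonneg_of_le (fun n => Set.indicator_nonneg (fun _ _ => by positivity) _) ?_
    (hB.add h1)
  intro n
  have e1 : 0 ≤ B.indicator (fun n : ℕ => (1 : ℝ) / n) n :=
    Set.indicator_nonneg (fun _ _ => by positivity) _
  have e2 : 0 ≤ F.indicator (fun n : ℕ => (1 : ℝ) / n) n :=
    Set.indicator_nonneg (fun _ _ => by positivity) _
  by_cases hn : n ∈ A
  · rw [Set.indicator_of_mem hn]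
    rcases hAB hn with h | h
    · have e3 : B.indicator (fun n : ℕ => (1 : ℝ) / n) n = 1 / (n : ℝ) := Set.indicator_of_mem h _
      linarith
    · have e3 : F.indicator (fun n : ℕ => (1 : ℝ) / n) n = 1 / (n : ℝ) := Set.indicator_of_mem h _
      linarith
  · rw [Set.indicator_of_notMem hn]
    linarith

theorem order_aux {p q : ℕ} (hp : p.Prime) (hq : q.Prime) (hne : p ≠ q) (z : ZMod p)
    (hz : ∑ i ∈ range q, z ^ i = 0) : q ∣ p - 1 := by
  have : Fact p.Prime := ⟨hp⟩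
  have h1 : z ^ q = 1 := by
    have h2 := geom_sum_mul z q
    rw [hz, zero_mul] at h2
    exact (sub_eq_zero.1 h2.symm)
  have h2 : z ≠ 1 := by
    rintro rfl
    simp only [one_pow, sum_const, card_range, nsmul_eq_mul, mul_one] at hz
    rw [ZMod.natCast_eq_zero_iff] at hz
    exact hne ((Nat.prime_dvd_prime_iff_eq hp hq).1 hz)
  have h3 : orderOf z = q := by
    rcases (Nat.dvd_prime hq).1 (orderOf_dvd_of_pow_eq_one h1) with h | h
    · exact absurd (orderOf_eq_one_iff.1 h) h2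
    · exact h
  have hz0 : z ≠ 0 := by
    rintro rfl
    rw [zero_pow hq.ne_zero] at h1
    exact zero_ne_one h1
  rw [← h3]
  exact orderOf_dvd_of_pow_eq_one (ZMod.pow_card_sub_one_eq_one hz0)

theorem PQ_diverges (h : ℤ[X]) (hd : 0 < h.natDegree) {q : ℕ} (hq : q.Prime) :
    ¬ Summable ((PQ h q).indicator fun n : ℕ => (1 : ℝ) / n) := by
  classical
  have ha0 : h.leadingCoeff ≠ 0 := by
    rw [Ne, leadingCoeff_eq_zero]
    rintro rfl
    simp at hd
  -- the roots
  have hinjQ : Function.Injective (Int.castRingHom ℂ) := Int.cast_injective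
  obtain ⟨θ, hθ⟩ : ∃ θ : ℂ, aeval θ h = 0 := by
    obtain ⟨θ, hθ⟩ := IsAlgClosed.exists_root (h.map (Int.castRingHom ℂ)) (by
      rw [degree_map_eq_of_injective hinjQ]
      intro h0
      rw [degree_eq_natDegree (by rintro rfl; simp at hd)] at h0
      have : h.natDegree = 0 := by exact_mod_cast h0
      omega)
    refine ⟨θ, ?_⟩
    rw [IsRoot.def, eval_map] at hθ
    rw [aeval_def]
    exact hθ
  obtain ⟨ζ, hζ⟩ : ∃ ζ : ℂ, ∑ i ∈ range q, ζ ^ i = 0 := by
    obtain ⟨ζ, hζ⟩ := IsAlgClosed.exists_root (∑ i ∈ range q, (X : ℂ[X]) ^ i) (by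
      have : Fact q.Prime := ⟨hq⟩
      rw [← cyclotomic_prime, degree_cyclotomic, Nat.totient_prime hq]
      have := hq.two_le
      exact_mod_cast (by omega : q - 1 ≠ 0))
    refine ⟨ζ, ?_⟩
    rw [IsRoot.def, eval_finsetSum] at hζ
    simpa only [eval_pow, eval_X] using hζ
  -- the field
  let K : IntermediateField ℚ ℂ := IntermediateField.adjoin ℚ {θ, ζ}
  have hfin : FiniteDimensional ℚ K := by
    apply IntermediateField.finiteDimensional_adjoin
    intro x hx
    rcases hx with rfl | hx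
    · have hne : h.map (Int.castRingHom ℚ) ≠ 0 := by
        rw [Ne, Polynomial.map_eq_zero_iff Int.cast_injective]
        rintro rfl
        simp at hd
      have halg : IsAlgebraic ℚ x := ⟨h.map (Int.castRingHom ℚ), hne, by
        rw [aeval_def, eval₂_map]
        have e : (algebraMap ℚ ℂ).comp (Int.castRingHom ℚ) = algebraMap ℤ ℂ := RingHom.ext_int _ _
        rw [e, ← aeval_def]
        exact hθ⟩
      exact halg.isIntegral
    · rw [Set.mem_singleton_iff] at hx
      rw [hx]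
      have h2 := geom_sum_mul ζ q
      rw [hζ, zero_mul] at h2
      have h3 : ζ ^ q = 1 := sub_eq_zero.1 h2.symm
      exact IsIntegral.of_pow hq.pos (by rw [h3]; exact isIntegral_one)
  have hnf : NumberField K := { to_charZero := inferInstance, to_finiteDimensional := hfin }
  set θ' : K := ⟨θ, IntermediateField.subset_adjoin _ _ (by simp)⟩ with hθ'
  set ζ' : K := ⟨ζ, IntermediateField.subset_adjoin _ _ (by simp)⟩ with hζ'
  have hθ1 : aeval θ' h = 0 := by
    have hc : algebraMap K ℂ (aeval θ' h) = 0 := by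
      rw [← aeval_algebraMap_apply]
      exact hθ
    exact (map_eq_zero_iff _ (algebraMap K ℂ).injective).1 hc
  have hζ1 : ∑ i ∈ range q, ζ' ^ i = 0 := by
    have hc : algebraMap K ℂ (∑ i ∈ range q, ζ' ^ i) = 0 := by
      rw [map_sum]
      simp only [map_pow]
      exact hζ
    exact (map_eq_zero_iff _ (algebraMap K ℂ).injective).1 hc
  have hζq : ζ' ^ q = 1 := by
    have h2 := geom_sum_mul ζ' q
    rw [hζ1, zero_mul] at h2
    exact sub_eq_zero.1 h2.symm
  have hζint : IsIntegral ℤ ζ' :=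
    IsIntegral.of_pow hq.pos (by rw [hζq]; exact isIntegral_one)
  have hβint : IsIntegral ℤ (h.leadingCoeff • θ') := isIntegral_leadingCoeff_smul h θ' hθ1
  let z : NumberField.RingOfIntegers K := ⟨ζ', hζint⟩
  let β : NumberField.RingOfIntegers K := ⟨h.leadingCoeff • θ', hβint⟩
  have hz : ∑ i ∈ range q, z ^ i = 0 := by
    apply NumberField.RingOfIntegers.coe_injective
    rw [map_sum, map_zero]
    simp only [map_pow]
    exact hζ1
  have hβ : aeval β (scaleRoots h h.leadingCoeff) = 0 := by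
    apply NumberField.RingOfIntegers.coe_injective
    rw [← aeval_algebraMap_apply, map_zero]
    have h3 := scaleRoots_aeval_eq_zero (r := h.leadingCoeff) hθ1
    have h4 : (algebraMap (NumberField.RingOfIntegers K) K) β =
        algebraMap ℤ K h.leadingCoeff * θ' := by
      show (h.leadingCoeff • θ' : K) = _
      rw [Algebra.smul_def]
    rw [h4]
    exact h3
  -- the primes
  have hs := Pool.Agent.Helper932.not_summable_split (K := K)
  have hs' : ¬ Summable ({p : ℕ | p.Prime ∧ Nonempty (NumberField.RingOfIntegers K →+* ZMod p)}.indicator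
      fun n : ℕ => (1 : ℝ) / n) := by
    intro h4
    exact hs (summable_subtype_iff_indicator.2 h4)
  refine diverges_of_subset (Set.Iic (q + h.leadingCoeff.natAbs)) (Set.finite_Iic _) ?_ hs'
  rintro p ⟨hp, ⟨φ⟩⟩
  by_cases hpl : p ≤ q + h.leadingCoeff.natAbs
  · exact Or.inr hpl
  left
  have : Fact p.Prime := ⟨hp⟩
  refine ⟨hp, ?_, ?_⟩
  · apply order_aux hp hq (by omega) (φ z)
    have h4 := congrArg φ hz
    rw [map_sum, map_zero] at h4
    simpa only [map_pow] using h4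
  · have hap : ((h.leadingCoeff : ℤ) : ZMod p) ≠ 0 := by
      rw [Ne, ZMod.intCast_zmod_eq_zero_iff_dvd]
      intro hdv
      have := Nat.le_of_dvd (Int.natAbs_pos.2 ha0) (Int.natCast_dvd.1 hdv)
      omega
    refine ⟨((h.leadingCoeff : ℤ) : ZMod p)⁻¹ * φ β, ?_⟩
    have h4 : eval₂ (Int.castRingHom (ZMod p)) (φ β) (scaleRoots h h.leadingCoeff) = 0 := by
      have h5 := congrArg φ hβ
      rw [map_zero, aeval_def, hom_eval₂] at h5
      have e : φ.comp (algebraMap ℤ (NumberField.RingOfIntegers K)) = Int.castRingHom (ZMod p) :=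
        RingHom.ext_int _ _
      rw [e] at h5
      exact h5
    have h6 : φ β = (Int.castRingHom (ZMod p)) h.leadingCoeff *
        (((h.leadingCoeff : ℤ) : ZMod p)⁻¹ * φ β) := by
      rw [← mul_assoc]
      show _ = (((h.leadingCoeff : ℤ) : ZMod p) * ((h.leadingCoeff : ℤ) : ZMod p)⁻¹) * φ β
      rw [mul_inv_cancel₀ hap, one_mul]
    rw [h6, scaleRoots_eval₂_mul] at h4
    rcases mul_eq_zero.1 h4 with h7 | h7
    · exact absurd (pow_eq_zero_iff (by omega) |>.1 h7) hap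
    · exact h7

/-! ### The main lemma -/

/-- there are `k` primes `q` with `q ∤ G(n)` and `q ∣ p - 1` for a prime divisor `p` of `n` -/
def Far (G : ℤ[X]) (k : ℕ) (n : ℤ) : Prop :=
  ∃ Q : Finset ℕ, Q.card = k ∧ ∀ q ∈ Q, q.Prime ∧ ¬ (q : ℤ) ∣ G.eval n ∧
    ∃ p : ℕ, p.Prime ∧ (p : ℤ) ∣ n ∧ q ∣ p - 1

/-- the density of the zeros modulo a large prime -/
theorem zeros_small {ι : Type} [Fintype ι] (R : MvPolynomial ι ℤ) (hR : R ≠ 0) :
    ∃ T : ℕ, ∀ q : ℕ, q.Prime → T < q →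
      (nc q {c : ι → ℤ | (q : ℤ) ∣ MvPolynomial.eval c R} : ℝ) ≤
        (R.totalDegree : ℝ) / q * (q : ℝ) ^ Fintype.card ι := by
  classical
  obtain ⟨m, hm⟩ := MvPolynomial.ne_zero_iff.1 hR
  refine ⟨(MvPolynomial.coeff m R).natAbs, fun p hpp hpT => ?_⟩
  have : Fact p.Prime := ⟨hpp⟩
  have : NeZero p := ⟨hpp.ne_zero⟩
  have hne : R.map (Int.castRingHom (ZMod p)) ≠ 0 := by
    intro h
    have h1 := congrArg (MvPolynomial.coeff m) h
    rw [MvPolynomial.coeff_map, MvPolynomial.coeff_zero] at h1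
    have h2 : (p : ℤ) ∣ MvPolynomial.coeff m R := (ZMod.intCast_zmod_eq_zero_iff_dvd _ _).1 h1
    have h3 := Nat.le_of_dvd (Int.natAbs_pos.2 hm) (Int.natCast_dvd.1 h2)
    omega
  have h1 : nc p {c : ι → ℤ | (p : ℤ) ∣ MvPolynomial.eval c R} ≤
      {ρ : ι → ZMod p | MvPolynomial.eval ρ (R.map (Int.castRingHom (ZMod p))) = 0}.ncard := by
    refine Set.ncard_le_ncard ?_ (Set.toFinite _)
    rintro _ ⟨c, hc, rfl⟩
    have hc' : (p : ℤ) ∣ MvPolynomial.eval c R := hc
    show MvPolynomial.eval (fun i => ((c i : ℤ) : ZMod p)) (R.map (Int.castRingHom (ZMod p))) = 0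
    have e : MvPolynomial.eval (fun i => ((c i : ℤ) : ZMod p)) (R.map (Int.castRingHom (ZMod p))) =
        ((MvPolynomial.eval c R : ℤ) : ZMod p) := by
      rw [MvPolynomial.eval_map]
      exact (MvPolynomial.eval₂_comp (Int.castRingHom (ZMod p)) c R).symm
    rw [e, ZMod.intCast_zmod_eq_zero_iff_dvd]
    exact hc'
  have h2 := (Nat.mul_le_mul_right p h1).trans (zeros R p hne)
  have h3 : (nc p {c : ι → ℤ | (p : ℤ) ∣ MvPolynomial.eval c R} : ℝ) * p ≤
      R.totalDegree * (p : ℝ) ^ Fintype.card ι := by exact_mod_cast h2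
  have hp0 : (0 : ℝ) < p := by exact_mod_cast hpp.pos
  rw [div_mul_eq_mul_div, le_div_iff₀ hp0]
  exact h3

theorem nc_union_le {ι : Type} [Fintype ι] {q : ℕ} [NeZero q] {B N : Set (ι → ℤ)} (F : Finset ℕ)
    (Z : ℕ → Set (ι → ℤ)) (h : B ⊆ N ∪ ⋃ p ∈ F, Z p) :
    nc q B ≤ nc q N + ∑ p ∈ F, nc q (Z p) := by
  classical
  unfold nc
  have h1 : (fun (c : ι → ℤ) (i : ι) => (c i : ZMod q)) '' B ⊆
      ((fun (c : ι → ℤ) (i : ι) => (c i : ZMod q)) '' N) ∪
        ⋃ p ∈ F, (fun (c : ι → ℤ) (i : ι) => (c i : ZMod q)) '' Z p := by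
    rintro _ ⟨c, hc, rfl⟩
    rcases h hc with h2 | h2
    · exact Or.inl ⟨c, h2, rfl⟩
    · right
      rw [Set.mem_iUnion₂] at h2 ⊢
      obtain ⟨p, hp, h3⟩ := h2
      exact ⟨p, hp, c, h3, rfl⟩
  refine (Set.ncard_le_ncard h1 (Set.toFinite _)).trans ((Set.ncard_union_le _ _).trans ?_)
  exact Nat.add_le_add_left (Finset.set_ncard_biUnion_le _ _) _

theorem proNull_biUnion {ι : Type} [Fintype ι] (F : Finset ℕ) (Z : ℕ → Set (ι → ℤ))
    (hne : Nonempty ι) (h : ∀ p ∈ F, ProNull (Z p)) : ProNull (⋃ p ∈ F, Z p) := by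
  classical
  induction F using Finset.induction_on with
  | empty =>
    have : (⋃ p ∈ (∅ : Finset ℕ), Z p) = ∅ := by simp
    rw [this]
    exact (clo ι).2.2.1 hne _ Set.finite_empty
  | insert a F ha ih =>
    have : (⋃ p ∈ insert a F, Z p) = Z a ∪ ⋃ p ∈ F, Z p := by
      ext x
      simp
    rw [this]
    exact (clo ι).2.1 _ _ (h a (Finset.mem_insert_self _ _))
      (ih fun p hp => h p (Finset.mem_insert_of_mem hp))

/-- the value at the linear form -/
noncomputable def pol {ι : Type} [Fintype ι] (lam : ι → ℤ) (g : ℤ[X]) : MvPolynomial ι ℤ :=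
  aeval (∑ i, MvPolynomial.C (lam i) * MvPolynomial.X i) g

theorem pol_eval {ι : Type} [Fintype ι] (lam : ι → ℤ) (g : ℤ[X]) (c : ι → ℤ) :
    MvPolynomial.eval c (pol lam g) = g.eval (∑ i, lam i * c i) := by
  unfold pol
  rw [aeval_def, hom_eval₂]
  have e1 : (MvPolynomial.eval c).comp (algebraMap ℤ (MvPolynomial ι ℤ)) = RingHom.id ℤ :=
    RingHom.ext_int _ _
  have e2 : MvPolynomial.eval c (∑ i, MvPolynomial.C (lam i) * MvPolynomial.X i) =
      ∑ i, lam i * c i := by simp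
  rw [e1, e2]
  rfl

theorem pol_ne {ι : Type} [Fintype ι] [DecidableEq ι] (lam : ι → ℤ) (hl : lam ≠ 0) (g : ℤ[X])
    (hg : g ≠ 0) : pol lam g ≠ 0 := by
  obtain ⟨i₀, hi₀⟩ := Function.ne_iff.1 hl
  have hi₀' : lam i₀ ≠ 0 := hi₀
  intro h
  have h1 : ∀ s : ℤ, g.eval (lam i₀ * s) = 0 := by
    intro s
    have h2 := pol_eval lam g (Pi.single i₀ s)
    rw [h, map_zero] at h2
    have e : ∑ i, lam i * (Pi.single i₀ s : ι → ℤ) i = lam i₀ * s := by
      rw [Finset.sum_eq_single i₀]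
      · rw [Pi.single_eq_same]
      · intro j _ hj
        rw [Pi.single_eq_of_ne hj, mul_zero]
      · intro h3
        exact absurd (Finset.mem_univ _) h3
    rw [e] at h2
    exact h2.symm
  have h3 : (g.comp (C (lam i₀) * X)) = 0 := by
    apply Polynomial.funext
    intro s
    rw [eval_comp, eval_mul, eval_C, eval_X, h1 s, eval_zero]
  have h4 : (g.comp (C (lam i₀) * X)).natDegree = g.natDegree * 1 := by
    rw [natDegree_comp, natDegree_C_mul_X _ hi₀']
  rcases (comp_eq_zero_iff).1 h3 with h5 | ⟨_, h5⟩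
  · exact hg h5
  · have h6 := congrArg natDegree h5
    rw [natDegree_C_mul_X _ hi₀', natDegree_C] at h6
    exact one_ne_zero h6

/-- **main lemma** -/
theorem far_null {ι : Type} [Fintype ι] (lam : ι → ℤ) (hl : lam ≠ 0) (h : ℤ[X])
    (hd : 0 < h.natDegree) (G : ℤ[X]) (hG : G ≠ 0) (k : ℕ) :
    ProNull {c : ι → ℤ | ¬ Far G k (h.eval (∑ i, lam i * c i))} := by
  classical
  have hne : Nonempty ι := by
    obtain ⟨i₀, _⟩ := Function.ne_iff.1 hl
    exact ⟨i₀⟩
  have hGh : G.comp h ≠ 0 := by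
    intro h1
    rcases (comp_eq_zero_iff).1 h1 with h2 | ⟨_, h2⟩
    · exact hG h2
    · rw [h2, natDegree_C] at hd
      exact lt_irrefl _ hd
  set R := pol lam (G.comp h) with hR
  obtain ⟨T, hT⟩ := zeros_small R (pol_ne lam hl _ hGh)
  rw [proNull_iff]
  intro M hM ε hε
  set D : ℝ := 2 * (k + 1) * (R.totalDegree : ℝ) / ε with hD
  obtain ⟨F, hF, hFk⟩ := (Nat.infinite_setOfPred_prime.sdiff
    (Set.finite_Iic (T + M + ⌈D⌉₊))).exists_subset_card_eq k
  have hFp : ∀ q ∈ F, q.Prime := fun q hq => (hF hq).1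
  have hFl : ∀ q ∈ F, T + M + ⌈D⌉₊ < q := fun q hq => not_le.1 (hF hq).2
  choose! t ht using fun (q : ℕ) (p : ℕ) (hp : p ∈ PQ h q) => hp.2.2
  set N : ℕ → Set (ι → ℤ) := fun q =>
    {c | ∀ p ∈ PQ h q, ((∑ i, lam i * c i : ℤ) : ZMod p) ≠ t q p} with hN
  have hNn : ∀ q ∈ F, ProNull (N q) := fun q hq =>
    hit_null lam hl (PQ h q) (fun p hp => hp.1) (PQ_diverges h hd (hFp q hq)) (t q)
  obtain ⟨q₁, hq₁, hc₁, hb₁⟩ := (proNull_iff _).1 (proNull_biUnion F N hne hNn) M hM (ε / 2)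
    (by positivity)
  set q₂ : ℕ := ∏ q ∈ F, q with hq₂
  have hq₂0 : 0 < q₂ := Finset.prod_pos fun q hq => (hFp q hq).pos
  have hq0 : 0 < q₁ * q₂ := Nat.mul_pos hq₁ hq₂0
  have : NeZero (q₁ * q₂) := ⟨hq0.ne'⟩
  refine ⟨q₁ * q₂, hq0, Nat.Coprime.mul_left hc₁ ?_, ?_⟩
  · apply Nat.Coprime.prod_left
    intro q hq
    rw [(hFp q hq).coprime_iff_not_dvd]
    intro h1
    have h2 := Nat.le_of_dvd hM h1
    have h3 := hFl q hq
    omega
  · have hsub : {c : ι → ℤ | ¬ Far G k (h.eval (∑ i, lam i * c i))} ⊆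
        (⋃ q ∈ F, N q) ∪ ⋃ q ∈ F, {c : ι → ℤ | (q : ℤ) ∣ MvPolynomial.eval c R} := by
      intro c hc
      by_contra hcon
      rw [Set.mem_union, not_or, Set.mem_iUnion₂, Set.mem_iUnion₂] at hcon
      obtain ⟨c1, c2⟩ := hcon
      apply hc
      refine ⟨F, hFk, fun q hq => ⟨hFp q hq, ?_, ?_⟩⟩
      · intro h1
        apply c2
        refine ⟨q, hq, ?_⟩
        show (q : ℤ) ∣ MvPolynomial.eval c R
        rw [hR, pol_eval, eval_comp]
        exact h1
      · have h1 : c ∉ N q := fun h2 => c1 ⟨q, hq, h2⟩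
        simp only [hN, Set.mem_ofPred_eq, not_forall, not_not] at h1
        obtain ⟨p, hp, h2⟩ := h1
        refine ⟨p, hp.1, ?_, hp.2.1⟩
        rw [← ZMod.intCast_zmod_eq_zero_iff_dvd]
        have h3 := ht q p hp
        rw [← h2] at h3
        have h4 := Polynomial.eval₂_at_intCast (Int.castRingHom (ZMod p)) (∑ i, lam i * c i) (p := h)
        rw [h3] at h4
        rw [Int.coe_castRingHom] at h4
        exact_mod_cast h4.symm
    have h1 := nc_union_le (q := q₁ * q₂) F _ hsub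
    have h2 := bound_dvd hq0 hq₁ (Dvd.intro _ rfl) (⋃ q ∈ F, N q) _ hb₁
    have h3 : ∀ q ∈ F, (nc (q₁ * q₂) {c : ι → ℤ | (q : ℤ) ∣ MvPolynomial.eval c R} : ℝ) ≤
        ε / (2 * (k + 1)) * ((q₁ * q₂ : ℕ) : ℝ) ^ Fintype.card ι := by
      intro q hq
      have h4 := hT q (hFp q hq) (by have := hFl q hq; omega)
      have hdv1 : q ∣ q₂ := Finset.dvd_prod_of_mem (fun x : ℕ => x) hq
      have hdv : q ∣ q₁ * q₂ := hdv1.trans (Dvd.intro_left _ rfl)
      refine bound_dvd hq0 (hFp q hq).pos hdv _ _ (h4.trans ?_)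
      apply mul_le_mul_of_nonneg_right _ (by positivity)
      have hq0' : (0 : ℝ) < q := by exact_mod_cast (hFp q hq).pos
      have h5 : D ≤ q := by
        refine (Nat.le_ceil D).trans ?_
        have := hFl q hq
        exact_mod_cast (by omega : ⌈D⌉₊ ≤ q)
      rw [div_le_div_iff₀ hq0' (by positivity)]
      rw [hD, div_le_iff₀ hε] at h5
      linarith
    have h4 : (nc (q₁ * q₂) {c : ι → ℤ | ¬ Far G k (h.eval (∑ i, lam i * c i))} : ℝ) ≤
        nc (q₁ * q₂) (⋃ q ∈ F, N q) +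
          ∑ q ∈ F, (nc (q₁ * q₂) {c : ι → ℤ | (q : ℤ) ∣ MvPolynomial.eval c R} : ℝ) := by
      exact_mod_cast h1
    have h5 : ∑ q ∈ F, (nc (q₁ * q₂) {c : ι → ℤ | (q : ℤ) ∣ MvPolynomial.eval c R} : ℝ) ≤
        ε / 2 * ((q₁ * q₂ : ℕ) : ℝ) ^ Fintype.card ι := by
      refine (Finset.sum_le_sum h3).trans ?_
      rw [Finset.sum_const, hFk, nsmul_eq_mul, ← mul_assoc]
      apply mul_le_mul_of_nonneg_right _ (by positivity)
      rw [← mul_div_assoc, div_le_div_iff₀ (by positivity) (by norm_num)]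
      have : (0 : ℝ) ≤ k := Nat.cast_nonneg k
      nlinarith
    linarith

end Pool.Agent.N891.LT
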