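import Pool.Agent.N891.LT.Pro
import Pool.Agent.H95R2.Leh.Congr

/-!
# Consequences for Lehmer's totient problem (helper891)
-/

set_option autoImplicit false

namespace Pool.Agent.N891.LT

open Finset Polynomial Filter Topology

/-- a set of times of density zero -/
def Rare (p : ℕ → Prop) : Prop :=
  Tendsto (fun N : ℕ => (({n : ℕ | n < N ∧ p n}.ncard : ℕ) : ℝ) / (N : ℝ)) atTop (𝓝 0)

theorem fin_aux (p : ℕ → Prop) (N : ℕ) : {n : ℕ | n < N ∧ p n}.Finite :=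
  (Set.finite_Iio N).subset fun _ hn => hn.1

theorem Rare.mono {p q : ℕ → Prop} (h : Rare q) (hpq : ∀ n, p n → q n) : Rare p := by
  refine squeeze_zero (fun N => by positivity) (fun N => ?_) h
  have h1 : {n : ℕ | n < N ∧ p n}.ncard ≤ {n : ℕ | n < N ∧ q n}.ncard :=
    Set.ncard_le_ncard (fun n hn => ⟨hn.1, hpq n hn.2⟩) (fin_aux q N)
  exact div_le_div_of_nonneg_right (by exact_mod_cast h1) (Nat.cast_nonneg N)

theorem Rare.or {p q : ℕ → Prop} (hp : Rare p) (hq : Rare q) : Rare fun n => p n ∨ q n := by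
  have h := hp.add hq
  rw [add_zero] at h
  refine squeeze_zero (fun N => by positivity) (fun N => ?_) h
  rw [← add_div]
  gcongr
  have h1 : {n : ℕ | n < N ∧ (p n ∨ q n)} ⊆ {n : ℕ | n < N ∧ p n} ∪ {n : ℕ | n < N ∧ q n} := by
    rintro n ⟨hn, h1 | h1⟩
    · exact Or.inl ⟨hn, h1⟩
    · exact Or.inr ⟨hn, h1⟩
  have h2 := (Set.ncard_le_ncard h1 ((fin_aux p N).union (fin_aux q N))).trans
    (Set.ncard_union_le _ _)
  exact_mod_cast h2

theorem rare_false : Rare fun _ => False := by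
  unfold Rare
  simp

theorem Rare.finset {I : Type} (F : Finset I) {p : I → ℕ → Prop} (h : ∀ i ∈ F, Rare (p i)) :
    Rare fun n => ∃ i ∈ F, p i n := by
  classical
  induction F using Finset.induction_on with
  | empty => exact rare_false.mono fun n ⟨i, hi, _⟩ => absurd hi (Finset.notMem_empty i)
  | insert a F ha ih =>
    refine ((h a (Finset.mem_insert_self _ _)).or
      (ih fun i hi => h i (Finset.mem_insert_of_mem hi))).mono ?_
    rintro n ⟨i, hi, hn⟩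
    rcases Finset.mem_insert.1 hi with rfl | hi
    · exact Or.inl hn
    · exact Or.inr ⟨i, hi, hn⟩

/-- proof of helper92 (`Pool.Agent.N92.SD.Leh`) -/
theorem far_gcd {G : ℤ[X]} {k n : ℕ} (hn : 1 ≤ n) (h : Far G k n) :
    2 ^ k * Nat.gcd n.totient (G.eval (n : ℤ)).natAbs ≤ n.totient := by
  classical
  obtain ⟨Q, hQ, hq⟩ := h
  have hφ : 0 < n.totient := Nat.totient_pos.2 hn
  have hprod : ∏ q ∈ Q, q ∣ n.totient := by
    refine Finset.prod_primes_dvd _ (fun q hqQ => (hq q hqQ).1.prime) (fun q hqQ => ?_)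
    obtain ⟨-, -, p, hp, hpn, hqp⟩ := hq q hqQ
    have hpn' : p ∣ n := by exact_mod_cast hpn
    have h1 : p.totient ∣ n.totient := Nat.totient_dvd_of_dvd hpn'
    rw [Nat.totient_prime hp] at h1
    exact hqp.trans h1
  have hcop : Nat.Coprime (∏ q ∈ Q, q) (Nat.gcd n.totient (G.eval (n : ℤ)).natAbs) := by
    refine Nat.Coprime.prod_left fun q hqQ => ?_
    rw [Nat.Prime.coprime_iff_not_dvd (hq q hqQ).1]
    intro hd
    exact (hq q hqQ).2.1 (Int.natCast_dvd.2 (hd.trans (Nat.gcd_dvd_right _ _)))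
  have hdvd := hcop.mul_dvd_of_dvd_of_dvd hprod (Nat.gcd_dvd_left n.totient (G.eval (n : ℤ)).natAbs)
  have h2 : 2 ^ k ≤ ∏ q ∈ Q, q := by
    rw [← hQ]
    exact Finset.pow_card_le_prod Q _ 2 fun q hqQ => (hq q hqQ).1.two_le
  exact (Nat.mul_le_mul_right _ h2).trans (Nat.le_of_dvd hφ hdvd)

/-- a solution is not far from the polynomial `X - 1`; proof of helper92
(`Pool.Agent.Results.MP_b50d59_nt.ThinSequences`) -/
theorem not_far {n : ℕ} (h4 : 4 < n) (hc : ¬ n.Prime) (h : n.totient ∣ n - Nca8c8b9b.a n) :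
    ¬ Far (X - 1) 1 (n : ℤ) := by
  rintro ⟨Q, hQ, hq⟩
  obtain ⟨q, hqQ⟩ := Finset.card_pos.1 (by rw [hQ]; exact one_pos)
  obtain ⟨-, hqn, p, hp, hpn, hqp1⟩ := hq q hqQ
  obtain ⟨hl1, -, hl3⟩ := Pool.Agent.H95R2.Leh.leh_of_congr h4 hc h
  have hpn' : p ∣ n := by exact_mod_cast hpn
  have h5 : p.totient ∣ n.totient := Nat.totient_dvd_of_dvd hpn'
  rw [Nat.totient_prime hp] at h5
  have h6 : q ∣ n - 1 := (hqp1.trans h5).trans hl3
  apply hqn
  rw [eval_sub, eval_X, eval_one]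
  have h7 : ((n - 1 : ℕ) : ℤ) = (n : ℤ) - 1 := by
    rw [Nat.cast_sub hl1.le]
    rfl
  rw [← h7]
  exact_mod_cast h6

/-- the three consequences -/
theorem consequences {y : ℕ → ℤ} (h : ∀ f : ℤ[X], 0 < f.natDegree → ∀ G : ℤ[X], G ≠ 0 → ∀ k : ℕ,
    Rare fun t => ¬ Far G k (f.eval (y t))) (f : ℤ[X]) (hf : 0 < f.natDegree) :
    (∀ G : ℤ[X], G ≠ 0 → ∀ M : ℕ, Rare fun t => ¬ ∀ n : ℕ, 1 ≤ n → (n : ℤ) = f.eval (y t) →
      M * Nat.gcd n.totient (G.eval (n : ℤ)).natAbs ≤ n.totient) ∧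
    ∀ C : ℕ, Rare fun t => ¬ ∀ n : ℕ, |(n : ℤ) - f.eval (y t)| ≤ C →
      ¬ (4 < n ∧ ¬ n.Prime ∧ n.totient ∣ (n - Nca8c8b9b.a n)) := by
  constructor
  · intro G hG M
    refine (h f hf G hG M).mono fun t ht hF => ht fun n hn hnt => ?_
    rw [← hnt] at hF
    have h4 := far_gcd hn hF
    have h5 : M * Nat.gcd n.totient (G.eval (n : ℤ)).natAbs ≤
        2 ^ M * Nat.gcd n.totient (G.eval (n : ℤ)).natAbs :=
      Nat.mul_le_mul_right _ Nat.lt_two_pow_self.le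
    exact h5.trans h4
  · intro C₀
    have hX : (X - 1 : ℤ[X]) ≠ 0 := X_sub_C_ne_zero 1
    have h1 := Rare.finset (Finset.Icc (-(C₀ : ℤ)) C₀)
      (p := fun b t => ¬ Far (X - 1) 1 ((f + C b).eval (y t)))
      (fun b _ => h (f + C b) (by rwa [natDegree_add_C]) (X - 1) hX 1)
    refine h1.mono fun t ht => ?_
    push Not at ht
    obtain ⟨n, hn, h4, hc, hd⟩ := ht
    refine ⟨(n : ℤ) - f.eval (y t), Finset.mem_Icc.2 (abs_le.1 hn), ?_⟩
    have e : (f + C ((n : ℤ) - f.eval (y t))).eval (y t) = (n : ℤ) := by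
      rw [eval_add, eval_C]
      ring
    rw [e]
    exact not_far h4 hc hd

end Pool.Agent.N891.LT
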